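import Pool.Agent.Lib.MP_35c604_gt.PMain

open MP35.PL

/-- Two homotopy equivalent 2-complexes (connected compact polyhedra of dimension at most two) in
different simple homotopy types, such that the first simple homotopy type contains a 2-complex with
a piecewise linear embedding into a piecewise linear 3-manifold and the second does not. -/
theorem Pool.Agent.Results.MP_35c604_gt.PLSpine.result :
    ∃ K L : Poly, K.Is2 ∧ L.Is2 ∧ Nonempty (ContinuousMap.HomotopyEquiv K.set L.set) ∧
      ¬ K.SimpleEq L ∧ K.TypeEmbeds ∧ ¬ L.TypeEmbeds :=
  MP35.PL.main
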